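import Pool.Agent.H38R3.Mad

set_option autoImplicit false

/-!
# The distributivity number is at most the Borel almost disjointness number

We prove `ℵ₁ ≤ 𝔥 ≤ 𝔞_analytic ≤ 𝔞_Borel ≤ 𝔞_closed` in ZFC.

Idea. Fix distinct elements `A₀, A₁, …` of the mad family, made disjoint, and let `e a b` be the
`b`-th element of `A_a`. An infinite set `z`, listed increasingly, codes the set
`TT z = {e (z (2 k)) (z (2 k + 1)) | k}`. For an analytic almost disjoint family `B` the sets
`{z | ∃ A ∈ B, A n = i ∧ A ∩ TT z is infinite}` are analytic, hence completely Ramsey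
(Ellentuck's theorem, proved in `Pool.Agent.H38R3.Ellentuck`). If `Y` is homogeneous for all of
them, then every `TT z` with `z ⊆ Y` is almost disjoint from all elements of `B`: otherwise we can
pass to `z' ⊆ z` with `TT z' ⊆ A ∈ B`, and by homogeneity `A` is the only element of `B` that meets
some `TT z''` in an infinite set, for all `z'' ⊆ Y`; but some `TT z''` avoids `A`. These `Y` form an
open dense family, as the sets above do not change when finitely many pairs are removed from `z`.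
-/

namespace Pool.Agent.Results.MP_3ce754_lc.DistributivityBound

open Cardinal MeasureTheory

/-- The set `[ω]^ω` of infinite subsets of `ω`. -/
def InfSet : Type := {A : Set ℕ // A.Infinite}

open Classical in
/-- The characteristic function of an infinite set. -/
noncomputable def chi (A : InfSet) : ℕ → Bool := fun n => decide (n ∈ A.1)

/-- The topology of `[ω]^ω` is inherited from `2^ω` via characteristic functions. -/
noncomputable instance : TopologicalSpace InfSet := TopologicalSpace.induced chi inferInstance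

/-- Almost disjoint families: different elements have a finite intersection. -/
def AlmostDisjoint (F : Set InfSet) : Prop :=
  ∀ A ∈ F, ∀ B ∈ F, A ≠ B → (A.1 ∩ B.1).Finite

/-- Mad families: infinite almost disjoint families that are not properly contained in any almost
disjoint family. -/
def IsMad (F : Set InfSet) : Prop :=
  F.Infinite ∧ AlmostDisjoint F ∧ ∀ G, AlmostDisjoint G → ¬ F ⊂ G

/-- The least size of a collection `𝒜` of almost disjoint families with the property `P` such that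
`⋃ 𝒜` is a mad family. -/
noncomputable def madNumber (P : Set InfSet → Prop) : Cardinal :=
  sInf {κ | ∃ 𝒜 : Set (Set InfSet), #𝒜 = κ ∧ (∀ B ∈ 𝒜, P B ∧ AlmostDisjoint B) ∧ IsMad (⋃₀ 𝒜)}

/-- `𝔞_Borel`. -/
noncomputable def aBorel : Cardinal := madNumber fun B => MeasurableSet[borel InfSet] B

/-- `𝔞_closed`. -/
noncomputable def aClosed : Cardinal := madNumber fun B => IsClosed B

/-- The version of `𝔞_Borel` with analytic sets in place of Borel sets. -/
noncomputable def aAnalytic : Cardinal := madNumber fun B => AnalyticSet B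

/-- `A ⊆* B`: the difference `A \ B` is finite. -/
def AlmostSub (A B : InfSet) : Prop := (A.1 \ B.1).Finite

/-- Dense subfamilies of `([ω]^ω, ⊆*)`. -/
def IsDenseFam (D : Set InfSet) : Prop := ∀ A, ∃ B ∈ D, AlmostSub B A

/-- Open subfamilies of `([ω]^ω, ⊆*)`. -/
def IsOpenFam (D : Set InfSet) : Prop := ∀ A ∈ D, ∀ B, AlmostSub B A → B ∈ D

/-- The distributivity number `𝔥`: the least size of a collection of dense open subfamilies of
`([ω]^ω, ⊆*)` whose intersection is not dense. -/
noncomputable def distributivityNumber : Cardinal :=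
  sInf {κ | ∃ 𝒟 : Set (Set InfSet), #𝒟 = κ ∧ (∀ D ∈ 𝒟, IsDenseFam D ∧ IsOpenFam D) ∧
    ¬ IsDenseFam (⋂₀ 𝒟)}

/-! ### Preliminaries on the space -/

theorem chi_iff (A : InfSet) (n : ℕ) : chi A n = true ↔ n ∈ A.1 := by simp [chi]

theorem chi_injective : Function.Injective chi := by
  intro A B h
  apply Subtype.ext
  ext n
  rw [← chi_iff, ← chi_iff, h]

theorem chi_embedding : Topology.IsEmbedding chi := ⟨⟨rfl⟩, chi_injective⟩

theorem mem_range_chi (x : ℕ → Bool) : x ∈ Set.range chi ↔ {n | x n = true}.Infinite := by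
  constructor
  · rintro ⟨A, rfl⟩
    have : {n | chi A n = true} = A.1 := by
      ext n
      exact chi_iff A n
    rw [this]
    exact A.2
  · intro h
    refine ⟨⟨_, h⟩, ?_⟩
    funext n
    rw [Bool.eq_iff_iff]
    exact chi_iff _ n

theorem measurableSet_range_chi : MeasurableSet (Set.range chi) := by
  have h : Set.range chi = ⋂ k : ℕ, ⋃ n : ℕ, ⋃ _ : k < n, {x : ℕ → Bool | x n = true} := by
    ext x
    rw [mem_range_chi]
    simp only [Set.mem_iInter, Set.mem_iUnion]
    constructor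
    · intro h k
      obtain ⟨n, h1, h2⟩ := h.exists_gt k
      exact ⟨n, h2, h1⟩
    · intro h hf
      obtain ⟨M, hM⟩ := hf.bddAbove
      obtain ⟨n, h1, h2⟩ := h M
      have := hM h2
      omega
  rw [h]
  refine MeasurableSet.iInter fun k => MeasurableSet.iUnion fun n => MeasurableSet.iUnion fun _ => ?_
  have h2 : Measurable fun x : ℕ → Bool => x n := measurable_pi_apply n
  exact h2 (measurableSet_singleton true)

theorem analytic_of_borel {B : Set InfSet} (hB : MeasurableSet[borel InfSet] B) :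
    AnalyticSet B := by
  let _ : MeasurableSpace InfSet := borel InfSet
  have _ : BorelSpace InfSet := ⟨rfl⟩
  have _ : TopologicalSpace.IsCompletelyMetrizableSpace (ℕ → Bool) :=
    TopologicalSpace.IsCompletelyMetrizableSpace.pi_countable
  have h1 : MeasurableEmbedding chi := chi_embedding.measurableEmbedding measurableSet_range_chi
  have h2 : AnalyticSet (chi '' B) := (h1.measurableSet_image.2 hB).analyticSet
  rw [AnalyticSet] at h2 ⊢
  rcases h2 with h2 | ⟨f, hf, hf'⟩
  · left
    exact Set.image_eq_empty.1 h2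
  · right
    have h3 : ∀ x, ∃ A : InfSet, A ∈ B ∧ chi A = f x := by
      intro x
      have : f x ∈ chi '' B := hf' ▸ ⟨x, rfl⟩
      exact this
    choose f' hf1 hf2 using h3
    refine ⟨f', ?_, ?_⟩
    · rw [chi_embedding.continuous_iff]
      have : chi ∘ f' = f := funext hf2
      rwa [this]
    · apply Set.Subset.antisymm
      · rintro _ ⟨x, rfl⟩
        exact hf1 x
      · intro A hA
        have : chi A ∈ Set.range f := hf' ▸ ⟨A, hA, rfl⟩
        obtain ⟨x, hx⟩ := this
        exact ⟨x, chi_injective (by rw [hf2, hx])⟩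

theorem borel_of_closed {B : Set InfSet} (hB : IsClosed B) : MeasurableSet[borel InfSet] B := by
  let _ : MeasurableSpace InfSet := borel InfSet
  have _ : BorelSpace InfSet := ⟨rfl⟩
  exact hB.measurableSet

/-! ### Existence of mad families -/

/-- The multiples of an odd part: a partition of `ω` into infinite sets. -/
def col (n : ℕ) : InfSet := ⟨Set.range fun k => Nat.pair n k, Set.infinite_range_of_injective
  fun _ _ h => (Nat.pair_eq_pair.1 h).2⟩

theorem col_disjoint {m n : ℕ} (h : m ≠ n) : (col m).1 ∩ (col n).1 = ∅ := by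
  ext k
  simp only [Set.mem_inter_iff, Set.mem_empty_iff_false, iff_false, not_and]
  rintro ⟨i, rfl⟩ ⟨j, hj⟩
  exact h (Nat.pair_eq_pair.1 hj).1.symm

theorem col_injective : Function.Injective col := by
  intro m n h
  by_contra hne
  have h1 := col_disjoint hne
  rw [h, Set.inter_self] at h1
  have := (col n).2
  rw [h1] at this
  exact this Set.finite_empty

theorem exists_mad : ∃ F, IsMad F := by
  have h0 : AlmostDisjoint (Set.range col) := by
    rintro _ ⟨m, rfl⟩ _ ⟨n, rfl⟩ h
    have : m ≠ n := fun h' => h (by rw [h'])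
    rw [col_disjoint this]
    exact Set.finite_empty
  obtain ⟨F, hF1, hF2⟩ := zorn_subset_nonempty {G | AlmostDisjoint G} (by
    intro c hc hchain hne
    refine ⟨⋃₀ c, ?_, fun s hs => Set.subset_sUnion_of_mem hs⟩
    rintro A ⟨s, hs, hA⟩ B ⟨t, ht, hB⟩ hAB
    rcases hchain.total hs ht with h | h
    · exact hc ht A (h hA) B hB hAB
    · exact hc hs A hA B (h hB) hAB) _ h0
  refine ⟨F, (Set.infinite_range_of_injective col_injective).mono hF1, hF2.prop, ?_⟩
  intro G hG hFG
  exact hFG.2 (hF2.le_of_ge hG hFG.1)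

theorem closed_nonempty : {κ : Cardinal | ∃ 𝒜 : Set (Set InfSet), #𝒜 = κ ∧
    (∀ B ∈ 𝒜, IsClosed B ∧ AlmostDisjoint B) ∧ IsMad (⋃₀ 𝒜)}.Nonempty := by
  have _ : T2Space InfSet := chi_embedding.t2Space
  obtain ⟨F, hF⟩ := exists_mad
  refine ⟨_, (fun A => {A}) '' F, rfl, ?_, ?_⟩
  · rintro _ ⟨A, -, rfl⟩
    refine ⟨isClosed_singleton, ?_⟩
    intro B hB C hC h
    rw [Set.mem_singleton_iff] at hB hC
    exact absurd (hB.trans hC.symm) h
  · have : ⋃₀ ((fun A : InfSet => ({A} : Set InfSet)) '' F) = F := by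
      ext A
      simp
    rw [this]
    exact hF

/-! ### The distributivity number is uncountable -/

theorem h_nonempty : {κ : Cardinal | ∃ 𝒟 : Set (Set InfSet), #𝒟 = κ ∧
    (∀ D ∈ 𝒟, IsDenseFam D ∧ IsOpenFam D) ∧ ¬ IsDenseFam (⋂₀ 𝒟)}.Nonempty := by
  refine ⟨_, Set.range fun A : InfSet => {B : InfSet | ¬ AlmostSub A B}, rfl, ?_, ?_⟩
  · rintro _ ⟨A, rfl⟩
    refine ⟨?_, ?_⟩
    · intro X
      -- two disjoint infinite parts of `X`
      have hX := Pool.Agent.H38R3.Mad.en_strictMono X.2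
      have hmem := Pool.Agent.H38R3.Mad.en_mem X.2
      set f := Pool.Agent.H38R3.Mad.en X.1
      have h0 : (Set.range fun k => f (2 * k)).Infinite :=
        Set.infinite_range_of_injective fun k l h => by
          have := hX.injective h
          omega
      have h1 : (Set.range fun k => f (2 * k + 1)).Infinite :=
        Set.infinite_range_of_injective fun k l h => by
          have := hX.injective h
          omega
      by_cases hc : AlmostSub A ⟨_, h0⟩
      · refine ⟨⟨_, h1⟩, ?_, ?_⟩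
        · intro hc'
          refine A.2 ((hc.union hc').subset fun n hn => ?_)
          by_cases h2 : n ∈ Set.range fun k => f (2 * k)
          · refine Or.inr ⟨hn, ?_⟩
            obtain ⟨k, rfl⟩ := h2
            rintro ⟨l, hl⟩
            have := hX.injective hl
            omega
          · exact Or.inl ⟨hn, h2⟩
        · have : (Set.range fun k => f (2 * k + 1)) \ X.1 = ∅ := by
            rw [Set.sdiff_eq_empty]
            rintro _ ⟨k, rfl⟩
            exact hmem _
          show ((Set.range fun k => f (2 * k + 1)) \ X.1).Finite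
          rw [this]
          exact Set.finite_empty
      · refine ⟨⟨_, h0⟩, hc, ?_⟩
        have : (Set.range fun k => f (2 * k)) \ X.1 = ∅ := by
          rw [Set.sdiff_eq_empty]
          rintro _ ⟨k, rfl⟩
          exact hmem _
        show ((Set.range fun k => f (2 * k)) \ X.1).Finite
        rw [this]
        exact Set.finite_empty
    · intro B hB C hC hA
      refine hB ((Set.Finite.union hA hC).subset fun n hn => ?_)
      by_cases h2 : n ∈ C.1
      · exact Or.inr ⟨h2, hn.2⟩
      · exact Or.inl ⟨hn.1, h2⟩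
  · intro hd
    obtain ⟨B, hB, -⟩ := hd (col 0)
    refine hB _ ⟨B, rfl⟩ ?_
    show (B.1 \ B.1).Finite
    rw [Set.sdiff_self]
    exact Set.finite_empty

theorem almostSub_of_subset {A B : InfSet} (h : A.1 ⊆ B.1) : AlmostSub A B := by
  show (A.1 \ B.1).Finite
  rw [Set.sdiff_eq_empty.2 h]
  exact Set.finite_empty

theorem exists_subset {D : Set InfSet} (hD : IsDenseFam D ∧ IsOpenFam D) (A : InfSet) :
    ∃ B ∈ D, B.1 ⊆ A.1 := by
  obtain ⟨B, hB, hBA⟩ := hD.1 A
  have h1 : (B.1 ∩ A.1).Infinite := by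
    intro hf
    refine B.2 ((hf.union hBA).subset fun n hn => ?_)
    by_cases h : n ∈ A.1
    · exact Or.inl ⟨hn, h⟩
    · exact Or.inr ⟨hn, h⟩
  exact ⟨⟨_, h1⟩, hD.2 B hB _ (almostSub_of_subset Set.inter_subset_left),
    Set.inter_subset_right⟩

theorem countable_dense {D : ℕ → Set InfSet} (hD : ∀ n, IsDenseFam (D n) ∧ IsOpenFam (D n)) :
    IsDenseFam (⋂ n, D n) := by
  intro A
  obtain ⟨Y, hY, hYi, h⟩ := Pool.Agent.H38R3.Ell.fusion
    (fun t Y => ∀ h : Y.Infinite, ∀ i ≤ t.card, (⟨Y, h⟩ : InfSet) ∈ D i)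
    (fun t Y Y' hs h hi i hit => (hD i).2 _ (h (hi.mono hs) i hit) _ (almostSub_of_subset hs))
    (fun t Y hY => by
      have key : ∀ k, ∃ Y' : InfSet, Y'.1 ⊆ Y ∧ ∀ i ≤ k, Y' ∈ D i := by
        intro k
        induction k with
        | zero =>
          obtain ⟨B, h1, h2⟩ := exists_subset (hD 0) ⟨Y, hY⟩
          exact ⟨B, h2, fun i hi => by rwa [Nat.le_zero.1 hi]⟩
        | succ k ih =>
          obtain ⟨Y', h1, h2⟩ := ih
          obtain ⟨B, h3, h4⟩ := exists_subset (hD (k + 1)) Y'
          refine ⟨B, h4.trans h1, fun i hi => ?_⟩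
          rcases Nat.le_succ_iff.1 hi with hi | hi
          · exact (hD i).2 _ (h2 i hi) _ (almostSub_of_subset h4)
          · rw [hi]; exact h3
      obtain ⟨Y', h1, h2⟩ := key t.card
      exact ⟨Y'.1, h1, Y'.2, fun _ => h2⟩) ∅ A.1 A.2
  refine ⟨⟨Y, hYi⟩, ?_, almostSub_of_subset hY⟩
  refine Set.mem_iInter.2 fun i => ?_
  obtain ⟨u, hu1, hu2⟩ := hYi.exists_subset_card_eq i
  have h1 := h u (fun n hn => hu1 hn) (Pool.Agent.H38R3.Ell.above_infinite hYi) i
    (by rw [Finset.empty_union, hu2])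
  refine (hD i).2 _ h1 _ ?_
  refine (Set.finite_Iic (u.sup id)).subset ?_
  rintro n ⟨hn1, hn2⟩
  rw [Set.mem_Iic]
  by_contra hlt
  refine hn2 ⟨hn1, fun m hm => ?_⟩
  have : m ≤ u.sup id := Finset.le_sup (f := id) hm
  omega

theorem aleph_one_le : ℵ₁ ≤ distributivityNumber := by
  refine le_csInf h_nonempty ?_
  rintro _ ⟨𝒟, rfl, h1, h2⟩
  by_contra hlt
  rw [not_le, Cardinal.lt_aleph_one_iff, Cardinal.le_aleph0_iff_set_countable] at hlt
  apply h2
  rcases Set.eq_empty_or_nonempty 𝒟 with he | hne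
  · subst he
    intro A
    refine ⟨A, by simp, almostSub_of_subset le_rfl⟩
  · obtain ⟨f, hf⟩ := hlt.exists_eq_range hne
    rw [hf, Set.sInter_range]
    exact countable_dense fun n => h1 _ (hf ▸ ⟨n, rfl⟩)

/-! ### The upper bound -/

open Pool.Agent.H38R3.Mad in
theorem not_mad {𝒜 : Set (Set InfSet)} (h𝒜 : ∀ B ∈ 𝒜, AnalyticSet B ∧ AlmostDisjoint B)
    (hlt : #𝒜 < distributivityNumber) : ¬ IsMad (⋃₀ 𝒜) := by
  rintro ⟨hinf, had, hmax⟩
  obtain ⟨φ⟩ : Nonempty (ℕ ↪ (⋃₀ 𝒜 : Set InfSet)) := ⟨hinf.natEmbedding⟩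
  let A : ℕ → InfSet := fun n => (φ n).1
  have hAmem : ∀ n, A n ∈ ⋃₀ 𝒜 := fun n => (φ n).2
  have hAinj : ∀ m n, A m = A n → m = n := fun m n h => φ.injective (Subtype.ext h)
  -- the disjoint versions
  let A' : ℕ → Set ℕ := fun n => (A n).1 \ ⋃ m ∈ Finset.range n, (A m).1
  have hA'inf : ∀ n, (A' n).Infinite := by
    intro n hf
    have h1 : (⋃ m ∈ Finset.range n, (A n).1 ∩ (A m).1).Finite := by
      refine Set.Finite.biUnion (Finset.range n).finite_toSet fun m hm => ?_
      refine had _ (hAmem n) _ (hAmem m) fun h => ?_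
      have h2 := hAinj _ _ h
      have h3 := Finset.mem_range.1 (Finset.mem_coe.1 hm)
      omega
    refine (A n).2 ((hf.union h1).subset fun k hk => ?_)
    by_cases h : k ∈ ⋃ m ∈ Finset.range n, (A m).1
    · right
      simp only [Set.mem_iUnion] at h ⊢
      obtain ⟨m, hm, hkm⟩ := h
      exact ⟨m, hm, hk, hkm⟩
    · exact Or.inl ⟨hk, h⟩
  have hA'dis : ∀ m n k, k ∈ A' m → k ∈ A' n → m = n := by
    have key : ∀ m n k, m < n → k ∈ A' m → k ∈ A' n → False := by
      intro m n k hmn h1 h2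
      refine h2.2 ?_
      simp only [Set.mem_iUnion]
      exact ⟨m, Finset.mem_range.2 hmn, h1.1⟩
    intro m n k h1 h2
    rcases lt_trichotomy m n with h | h | h
    · exact (key m n k h h1 h2).elim
    · exact h
    · exact (key n m k h h2 h1).elim
  let e : ℕ → ℕ → ℕ := fun a b => en (A' a) b
  have he : ∀ a b a' b', e a b = e a' b' → a = a' ∧ b = b' := by
    intro a b a' b' h
    have h1 : e a b ∈ A' a := en_mem (hA'inf a) b
    have h2 : e a' b' ∈ A' a' := en_mem (hA'inf a') b'
    have h3 : a = a' := hA'dis a a' _ h1 (h ▸ h2)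
    subst h3
    exact ⟨rfl, (en_strictMono (hA'inf a)).injective h⟩
  -- the dense open families
  let D : Set InfSet → Set InfSet := fun B => {Y | ∀ z ⊆ Y.1, z.Infinite → ∀ C ∈ B,
    (C.1 ∩ TT e z).Finite}
  have hDopen : ∀ B, IsOpenFam (D B) := by
    intro B Y hY Y' hY' z hz hzi C hC
    exact almost hY' (fun z hz hzi => hY z hz hzi C hC) z hz hzi
  have hDdense : ∀ B ∈ 𝒜, IsDenseFam (D B) := by
    intro B hB X
    obtain ⟨hBa, hBd⟩ := h𝒜 B hB
    rw [AnalyticSet] at hBa
    rcases hBa with rfl | ⟨f, hf, rfl⟩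
    · exact ⟨X, fun z _ _ C hC => absurd hC (Set.notMem_empty C), almostSub_of_subset le_rfl⟩
    have hset : ∀ C : InfSet, {m | chi C m = true} = C.1 := fun C => by
      ext n
      exact chi_iff C n
    have hg : Continuous fun x => chi (f x) := chi_embedding.continuous.comp hf
    obtain ⟨Y, hY, hYi, h⟩ := Pool.Agent.H38R3.Mad.main (g := fun x => chi (f x)) he hg
      (by
        intro x y hxy
        simp only [hset]
        exact hBd _ ⟨x, rfl⟩ _ ⟨y, rfl⟩ fun h => hxy (by simp only [h]))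
      (by
        intro x
        have hx : f x ∈ ⋃₀ 𝒜 := ⟨_, hB, ⟨x, rfl⟩⟩
        have key : ∀ a, f x ≠ A a → {b | chi (f x) (e a b) = true}.Finite := by
          intro a ha
          refine Set.Finite.preimage (f := e a) (fun b _ b' _ h => (he _ _ _ _ h).2)
            (had _ hx _ (hAmem a) ha) |>.subset ?_
          intro b hb
          exact ⟨(chi_iff _ _).1 hb, (en_mem (hA'inf a) b).1⟩
        by_cases hex : ∃ a₀, f x = A a₀
        · obtain ⟨a₀, ha₀⟩ := hex
          refine ⟨a₀ + 1, fun a ha => key a fun h => ?_⟩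
          have := hAinj _ _ (ha₀.symm.trans h)
          omega
        · exact ⟨0, fun a _ => key a fun h => hex ⟨a, h⟩⟩) X.2
    refine ⟨⟨Y, hYi⟩, ?_, almostSub_of_subset hY⟩
    rintro z hz hzi _ ⟨x, rfl⟩
    have := h z hz hzi x
    rwa [hset] at this
  -- a common element
  have hcard : #(D '' 𝒜) < distributivityNumber := lt_of_le_of_lt Cardinal.mk_image_le hlt
  have hdense : IsDenseFam (⋂₀ (D '' 𝒜)) := by
    by_contra hnd
    refine notMem_of_lt_csInf' hcard ⟨D '' 𝒜, rfl, ?_, hnd⟩
    rintro _ ⟨B, hB, rfl⟩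
    exact ⟨hDdense B hB, hDopen B⟩
  obtain ⟨Y, hY, -⟩ := hdense (A 0)
  have hfin : ∀ C ∈ ⋃₀ 𝒜, (C.1 ∩ TT e Y.1).Finite := by
    rintro C ⟨B, hB, hC⟩
    exact hY (D B) ⟨B, hB, rfl⟩ Y.1 le_rfl Y.2 C hC
  let T : InfSet := ⟨TT e Y.1, TT_infinite he Y.2⟩
  have hT : T ∉ ⋃₀ 𝒜 := by
    intro h
    have h1 := hfin T h
    have h2 : T.1 ∩ TT e Y.1 = T.1 := Set.inter_self _
    rw [h2] at h1
    exact T.2 h1
  refine hmax (insert T (⋃₀ 𝒜)) ?_ ⟨Set.subset_insert _ _, fun h => hT (h (Set.mem_insert _ _))⟩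
  rintro B hB C hC hBC
  rcases Set.mem_insert_iff.1 hB with rfl | hB
  · rcases Set.mem_insert_iff.1 hC with rfl | hC
    · exact absurd rfl hBC
    · rw [Set.inter_comm]
      exact hfin C hC
  · rcases Set.mem_insert_iff.1 hC with rfl | hC
    · exact hfin B hB
    · exact had B hB C hC hBC

/-- **ZFC proves `𝔥 ≤ 𝔞_Borel`, hence also `𝔥 ≤ 𝔞_closed`.** More precisely, the distributivity
number is uncountable and at most the least number of analytic almost disjoint families whose union
is a mad family, and this is at most `𝔞_Borel ≤ 𝔞_closed`. -/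
theorem result : ℵ₁ ≤ distributivityNumber ∧ distributivityNumber ≤ aAnalytic ∧
    aAnalytic ≤ aBorel ∧ aBorel ≤ aClosed := by
  have hsub1 : {κ : Cardinal | ∃ 𝒜 : Set (Set InfSet), #𝒜 = κ ∧
      (∀ B ∈ 𝒜, IsClosed B ∧ AlmostDisjoint B) ∧ IsMad (⋃₀ 𝒜)} ⊆
      {κ : Cardinal | ∃ 𝒜 : Set (Set InfSet), #𝒜 = κ ∧
      (∀ B ∈ 𝒜, MeasurableSet[borel InfSet] B ∧ AlmostDisjoint B) ∧ IsMad (⋃₀ 𝒜)} := by
    rintro κ ⟨𝒜, h1, h2, h3⟩
    exact ⟨𝒜, h1, fun B hB => ⟨borel_of_closed (h2 B hB).1, (h2 B hB).2⟩, h3⟩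
  have hsub2 : {κ : Cardinal | ∃ 𝒜 : Set (Set InfSet), #𝒜 = κ ∧
      (∀ B ∈ 𝒜, MeasurableSet[borel InfSet] B ∧ AlmostDisjoint B) ∧ IsMad (⋃₀ 𝒜)} ⊆
      {κ : Cardinal | ∃ 𝒜 : Set (Set InfSet), #𝒜 = κ ∧
      (∀ B ∈ 𝒜, AnalyticSet B ∧ AlmostDisjoint B) ∧ IsMad (⋃₀ 𝒜)} := by
    rintro κ ⟨𝒜, h1, h2, h3⟩
    exact ⟨𝒜, h1, fun B hB => ⟨analytic_of_borel (h2 B hB).1, (h2 B hB).2⟩, h3⟩
  refine ⟨aleph_one_le, ?_, ?_, ?_⟩
  · refine le_csInf ((closed_nonempty.mono hsub1).mono hsub2) ?_
    rintro _ ⟨𝒜, rfl, h1, h2⟩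
    by_contra hlt
    exact not_mad h1 (not_le.1 hlt) h2
  · exact csInf_le_csInf' (closed_nonempty.mono hsub1) hsub2
  · exact csInf_le_csInf' closed_nonempty hsub1

end Pool.Agent.Results.MP_3ce754_lc.DistributivityBound
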